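import Mathlib

set_option autoImplicit false

/-!
# Function spaces `C_p`, weight, a graph principle, and the forcing language

A sentence of the forcing language of a preordered set `P` of conditions is represented by the set
of the conditions which force it. Negation, conjunction and universal quantification are the
primitive connectives, with their usual forcing clauses; the other connectives are defined from
them classically. A name for a subset of a ground model set `T` is a map `T → Set P`: the element
`t` is in the named set iff the generic filter meets the set of conditions attached to `t`.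
-/

namespace Pool.Agent.H513Z.CpU

open Cardinal TopologicalSpace

/-! ### Topology -/

/-- `C_p(X)`: the continuous real functions on `X`, as a subspace of the product `ℝ^X`. -/
abbrev Cp (X : Type) [TopologicalSpace X] : Type := {f : X → ℝ // Continuous f}

/-- The weight of a space: the least cardinality of a base. -/
noncomputable def weight (X : Type) [TopologicalSpace X] : Cardinal.{0} :=
  sInf {c | ∃ B : Set (Set X), IsTopologicalBasis B ∧ #B = c}

/-- `W` is a compact Hausdorff space of weight `κ`, and `C_p(X)` embeds in `C_p(W)` for every compact
Hausdorff space `X` of weight at most `κ`. -/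
def CpUniversal (κ : Cardinal.{0}) (W : Type) [TopologicalSpace W] : Prop :=
  CompactSpace W ∧ T2Space W ∧ weight W = κ ∧
    ∀ (X : Type) [TopologicalSpace X], CompactSpace X → T2Space X → weight X ≤ κ →
      ∃ φ : Cp X → Cp W, Topology.IsEmbedding φ

/-- The same with linear embeddings. -/
def LinCpUniversal (κ : Cardinal.{0}) (W : Type) [TopologicalSpace W] : Prop :=
  CompactSpace W ∧ T2Space W ∧ weight W = κ ∧
    ∀ (X : Type) [TopologicalSpace X], CompactSpace X → T2Space X → weight X ≤ κ →
      ∃ φ : Cp X → Cp W, Topology.IsEmbedding φ ∧
        ∀ (f g h : Cp X) (a b : ℝ), h.1 = a • f.1 + b • g.1 → (φ h).1 = a • (φ f).1 + b • (φ g).1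

/-! ### The graph principle -/

/-- Any two distinct elements of `s` are `E`-related. -/
def IsClique {V : Type} (E : V → V → Prop) (s : Set V) : Prop :=
  ∀ x ∈ s, ∀ y ∈ s, x ≠ y → E x y

/-- No two distinct elements of `s` are `E`-related. -/
def IsIndep {V : Type} (E : V → V → Prop) (s : Set V) : Prop :=
  ∀ x ∈ s, ∀ y ∈ s, x ≠ y → ¬ E x y

/-- For every family `H` of finite subsets of `K` there is a relation `E` on `V` such that for
every function `b : V → K`, either `b` maps some finite `E`-clique onto a set not in `H`, or
there is a set `A ⊆ V` with `E`-independent subsets of every finite size such that `b` maps every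
finite subset of `A` onto a set in `H`. (A finite piece of `b` is a finite set `t` of pairs
`(x, b x)`; `u` is the set of its second coordinates.) -/
def GraphPrinciple (V K : Type) : Prop :=
  ∀ H : Finset K → Prop, ∃ E : V → V → Prop, ∀ b : V → K,
    (∃ (t : Finset (V × K)) (u : Finset K), (u : Set K) = Prod.snd '' (t : Set (V × K)) ∧
      (∀ z ∈ t, b z.1 = z.2) ∧ IsClique E (Prod.fst '' (t : Set (V × K))) ∧ ¬ H u) ∨
    (∃ A : V → Prop,
      (∀ (t : Finset (V × K)) (u : Finset K), (u : Set K) = Prod.snd '' (t : Set (V × K)) →
        (∀ z ∈ t, b z.1 = z.2 ∧ A z.1) → H u) ∧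
      ∀ n : ℕ, ∃ s : Finset V, s.card = n ∧ (∀ x ∈ s, A x) ∧ IsIndep E s)

/-! ### The forcing language -/

section Language

universe v

variable {P : Type} [Preorder P]

/-- `p` forces `not φ` iff no `q ≤ p` forces `φ`. -/
def fnot (φ : Set P) : Set P := {p | ∀ q ≤ p, q ∉ φ}

/-- `p` forces `φ and ψ` iff it forces both. -/
def fand (φ ψ : Set P) : Set P := {p | p ∈ φ ∧ p ∈ ψ}

/-- `p` forces `for all i, φ i` iff it forces every `φ i`. -/
def fall {ι : Sort v} (φ : ι → Set P) : Set P := {p | ∀ i, p ∈ φ i}

/-- `φ or ψ` is `not (not φ and not ψ)`. -/
def for' (φ ψ : Set P) : Set P := fnot (fand (fnot φ) (fnot ψ))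

/-- `φ implies ψ` is `not (φ and not ψ)`. -/
def fimp (φ ψ : Set P) : Set P := fnot (fand φ (fnot ψ))

/-- `there is i with φ i` is `not for all i, not φ i`. -/
def fex {ι : Sort v} (φ : ι → Set P) : Set P := fnot (fall fun i => fnot (φ i))

/-- An absolute statement about ground model objects. -/
def fground (h : Prop) : Set P := {_p | h}

/-- `p` forces that the generic filter meets the set `N` of conditions:
the set of `r` lying below some member of `N` is dense below `p`. -/
def meets (N : Set P) : Set P := {p | ∀ q ≤ p, ∃ r ≤ q, ∃ s ∈ N, r ≤ s}

/-- The relation named by `R` is a function from `X` to `Y`. -/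
def IsFun {X Y : Type} (R : X → Y → Set P) : Set P :=
  fand (fall fun x => fex fun y => meets (R x y))
    (fall fun x => fall fun y => fall fun y' =>
      fimp (fand (meets (R x y)) (meets (R x y'))) (fground (y = y')))

/-- The relation named by `R` is onto `Y`. -/
def IsOnto {X Y : Type} (R : X → Y → Set P) : Set P :=
  fall fun y => fex fun x => meets (R x y)

/-- Every uncountable cardinal `ν` of the ground model is a cardinal of the extension: no function
from a set of smaller ground model cardinality `μ` to `ν` is onto. -/
def CardinalsPreserved (P : Type) [Preorder P] : Set P :=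
  fall fun μ : Cardinal.{0} => fall fun ν : Cardinal.{0} => fall fun _ : μ < ν =>
    fall fun _ : ℵ₀ < ν =>
      fnot (fex fun R : μ.out → ν.out → Set P => fand (IsFun R) (IsOnto R))

/-- The ground model set `s` is a clique of the relation named by `E`. -/
def FClique {V : Type} (E : V → V → Set P) (s : Set V) : Set P :=
  fall fun x => fall fun _ : x ∈ s => fall fun y => fall fun _ : y ∈ s => fall fun _ : x ≠ y =>
    meets (E x y)

/-- The ground model set `s` is independent for the relation named by `E`. -/
def FIndep {V : Type} (E : V → V → Set P) (s : Set V) : Set P :=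
  fall fun x => fall fun _ : x ∈ s => fall fun y => fall fun _ : y ∈ s => fall fun _ : x ≠ y =>
    fnot (meets (E x y))

/-- `GraphPrinciple V K`, clause by clause, as a sentence of the forcing language: `H`, `E`, `b`
and `A` range over names; finite sets and numbers range over the ground model. -/
def GraphForced (P : Type) [Preorder P] (V K : Type) : Set P :=
  fall fun H : Finset K → Set P => fex fun E : V → V → Set P => fall fun b : V → K → Set P =>
    fimp (IsFun b) (for'
      (fex fun t : Finset (V × K) => fex fun u : Finset K =>
        fand (fground ((u : Set K) = Prod.snd '' (t : Set (V × K))))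
          (fand (fall fun z => fall fun _ : z ∈ t => meets (b z.1 z.2))
            (fand (FClique E (Prod.fst '' (t : Set (V × K)))) (fnot (meets (H u))))))
      (fex fun A : V → Set P => fand
        (fall fun t : Finset (V × K) => fall fun u : Finset K =>
          fall fun _ : (u : Set K) = Prod.snd '' (t : Set (V × K)) =>
            fimp (fall fun z => fall fun _ : z ∈ t => fand (meets (b z.1 z.2)) (meets (A z.1)))
              (meets (H u)))
        (fall fun n : ℕ => fex fun s : Finset V => fand (fground (s.card = n))
          (fand (fall fun x => fall fun _ : x ∈ s => meets (A x)) (FIndep E s)))))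

end Language

end Pool.Agent.H513Z.CpU
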