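import Pool.Agent.H513Z.CpU.Defs
import Pool.Agent.H631R2.Cohen

set_option autoImplicit false

namespace Pool.Agent.H513Z.CpU

open Cardinal Set Pool.Agent.H631R2

section General

universe v

variable {P : Type} [Preorder P]

theorem mem_fex {ι : Sort v} {φ : ι → Set P} {p : P} :
    p ∈ fex φ ↔ ∀ q ≤ p, ∃ r ≤ q, ∃ i, r ∈ φ i := by
  simp only [fex, fnot, fall, Set.mem_ofPred_eq, not_forall, not_not]
  constructor
  · intro h q hq
    obtain ⟨i, r, hr, h'⟩ := h q hq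
    exact ⟨r, hr, i, h'⟩
  · intro h q hq
    obtain ⟨r, hr, i, h'⟩ := h q hq
    exact ⟨i, r, hr, h'⟩

theorem mem_fimp {φ ψ : Set P} {p : P} :
    p ∈ fimp φ ψ ↔ ∀ q ≤ p, q ∈ φ → ∃ r ≤ q, r ∈ ψ := by
  simp only [fimp, fnot, fand, Set.mem_ofPred_eq, not_and, not_forall, not_not]
  constructor
  · intro h q hq h'
    obtain ⟨r, hr, h''⟩ := h q hq h'
    exact ⟨r, hr, h''⟩
  · intro h q hq h'
    obtain ⟨r, hr, h''⟩ := h q hq h'
    exact ⟨r, hr, h''⟩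

theorem meets_mono {N : Set P} {p q : P} (h : p ∈ meets N) (hq : q ≤ p) : q ∈ meets N :=
  fun r hr => h r (hr.trans hq)

theorem fnot_mono {φ : Set P} {p q : P} (h : p ∈ fnot φ) (hq : q ≤ p) : q ∈ fnot φ :=
  fun r hr => h r (hr.trans hq)

theorem meets_of_le {N : Set P} {p s : P} (hs : s ∈ N) (h : p ≤ s) : p ∈ meets N :=
  fun q hq => ⟨q, le_rfl, s, hs, hq.trans h⟩

theorem meets_of_dense {N : Set P} {p : P} (h : ∀ q ≤ p, ∃ r ≤ q, r ∈ meets N) : p ∈ meets N := by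
  intro q hq
  obtain ⟨r, hr, h'⟩ := h q hq
  obtain ⟨r', hr', h''⟩ := h' r le_rfl
  exact ⟨r', hr'.trans hr, h''⟩

theorem isFun_mono {X Y : Type} {R : X → Y → Set P} {p q : P} (h : p ∈ IsFun R) (hq : q ≤ p) :
    q ∈ IsFun R :=
  ⟨fun x => fnot_mono (h.1 x) hq, fun x y y' => fnot_mono (h.2 x y y') hq⟩

theorem isFun_unique {X Y : Type} {R : X → Y → Set P} {p : P} (h : p ∈ IsFun R) {x : X}
    {y y' : Y} (h1 : p ∈ meets (R x y)) (h2 : p ∈ meets (R x y')) : y = y' := by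
  obtain ⟨r, -, hr⟩ := mem_fimp.1 (h.2 x y y') p le_rfl ⟨h1, h2⟩
  exact hr

theorem cardinalsPreserved_of_ccc
    (hcc : ∀ W : Set P, (∀ p ∈ W, ∀ q ∈ W, p ≠ q → ¬ ∃ r, r ≤ p ∧ r ≤ q) → #W ≤ ℵ₀) (q : P) :
    q ∈ CardinalsPreserved P := by
  intro μ ν hμν hν q1 hq1 hex
  obtain ⟨q2, hq2, R, hfun, honto⟩ := mem_fex.1 hex q1 le_rfl
  let V : μ.out → Set ν.out := fun x => {y | ∃ r ≤ q2, r ∈ meets (R x y)}
  have hV : ∀ x, #(V x) ≤ ℵ₀ := by
    intro x
    have hch : ∀ y : V x, ∃ r ≤ q2, r ∈ meets (R x y.1) := fun y => y.2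
    choose f hf1 hf2 using hch
    have hinc : ∀ i j, (∃ r, r ≤ f i ∧ r ≤ f j) → i = j := by
      rintro i j ⟨r, hri, hrj⟩
      exact Subtype.ext (isFun_unique (isFun_mono hfun (hri.trans (hf1 i)))
        (meets_mono (hf2 i) hri) (meets_mono (hf2 j) hrj))
    have hinj : Function.Injective f := fun i j hij => hinc i j ⟨f i, le_rfl, hij.le⟩
    rw [← Cardinal.mk_range_eq f hinj]
    apply hcc
    rintro _ ⟨i, rfl⟩ _ ⟨j, rfl⟩ hne hc
    exact hne (congrArg f (hinc i j hc))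
  have hU : (⋃ x, V x) = Set.univ := by
    rw [Set.eq_univ_iff_forall]
    intro y
    obtain ⟨r, hr, x, h⟩ := mem_fex.1 (honto y) q2 le_rfl
    exact Set.mem_iUnion.2 ⟨x, r, hr, h⟩
  have h1 : ν ≤ μ * ℵ₀ := by
    calc ν = #(ν.out) := (Cardinal.mk_out ν).symm
      _ = #(Set.univ : Set ν.out) := Cardinal.mk_univ.symm
      _ = #(⋃ x, V x) := by rw [hU]
      _ ≤ Cardinal.sum fun x => #(V x) := Cardinal.mk_iUnion_le_sum_mk
      _ ≤ Cardinal.sum fun _ : μ.out => ℵ₀ := Cardinal.sum_le_sum _ _ hV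
      _ = μ * ℵ₀ := by rw [Cardinal.sum_const', Cardinal.mk_out]
  exact absurd h1 (not_le.2 (Cardinal.mul_lt_of_lt hν.le hμν hν))

end General

section Cohen

variable {I : Type}

/-- Whether the generic filter meets `N` depends on countably many coordinates. -/
theorem exists_support (N : Set (Cond I)) : ∃ D : Set I, #D ≤ ℵ₀ ∧
    ∀ q q' : Cond I, q ∈ meets N → (∀ x ∈ q.s, x.1 ∈ D → x ∈ q'.s) → q' ∈ meets N := by
  classical
  obtain ⟨A, hA⟩ := zorn_subset {A : Set (Cond I) | A ⊆ meets N ∧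
      ∀ p ∈ A, ∀ q ∈ A, p ≠ q → ¬ ∃ r, r ≤ p ∧ r ≤ q} (by
    intro c hc hch
    refine ⟨⋃₀ c, ⟨?_, ?_⟩, fun s hs => subset_sUnion_of_mem hs⟩
    · rintro p ⟨s, hs, hp⟩
      exact (hc hs).1 hp
    · rintro p ⟨s, hs, hp⟩ q ⟨t, ht, hq⟩ hne
      rcases hch.total hs ht with h | h
      · exact (hc ht).2 p (h hp) q hq hne
      · exact (hc hs).2 p hp q (h hq) hne)
  have hAc : #A ≤ ℵ₀ := Cond.ccc A hA.prop.2
  have hmax : ∀ q ∈ meets N, ∃ a ∈ A, ∃ r, r ≤ a ∧ r ≤ q := by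
    intro q hq
    by_contra hc
    push Not at hc
    have h1 : insert q A ⊆ A := by
      refine hA.2 ⟨?_, ?_⟩ (subset_insert _ _)
      · rintro p (rfl | hp)
        · exact hq
        · exact hA.prop.1 hp
      · rintro p (rfl | hp) p' (rfl | hp') hne ⟨r, h1, h2⟩
        · exact hne rfl
        · exact hc p' hp' r h2 h1
        · exact hc p hp r h1 h2
        · exact hA.prop.2 p hp p' hp' hne ⟨r, h1, h2⟩
    exact hc q (h1 (mem_insert _ _)) q le_rfl le_rfl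
  refine ⟨⋃ a ∈ A, a.dom, ?_, ?_⟩
  · rw [Cardinal.le_aleph0_iff_set_countable] at hAc ⊢
    exact hAc.biUnion fun a _ => a.dom_finite.countable
  · intro q q' hq hsub
    apply meets_of_dense
    intro r hr
    let r0 : Cond I := ⟨r.s.filter fun x => x.1 ∈ ⋃ a ∈ A, a.dom, fun i h1 h2 =>
      r.fn i (Finset.mem_filter.1 h1).1 (Finset.mem_filter.1 h2).1⟩
    obtain ⟨r', h1, h2⟩ := Cond.exists_lb (p := r0) (q := q) (by
      intro i b c hb hc
      obtain ⟨hb1, hb2⟩ := Finset.mem_filter.1 hb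
      exact Cond.unique hb1 (hr (hsub _ hc hb2)))
    obtain ⟨a, ha, d, hd1, hd2⟩ := hmax r' (meets_mono hq h2)
    obtain ⟨e, he1, he2⟩ := Cond.exists_lb (p := a) (q := r) (by
      intro i b c hb hc
      refine Cond.unique (hd1 hb) (hd2 (h1 (Finset.mem_filter.2 ⟨hc, ?_⟩)))
      exact mem_iUnion₂.2 ⟨a, ha, Cond.mem_dom.2 ⟨b, hb⟩⟩)
    exact ⟨e, he2, meets_mono (hA.prop.1 ha) he1⟩

variable {Λ V : Type}

theorem amalg (ξ : Λ) (c : V → Cond (Λ × V × V)) (r s0 : Cond (Λ × V × V)) (S : Finset V)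
    (β : Bool) (h0 : s0 ≤ r) (h1 : ∀ a ∈ S, c a ≤ r)
    (h2 : ∀ a ∈ S, ∀ a' ∈ S, a ≠ a' → (c a).dom ∩ (c a').dom ⊆ r.dom)
    (h3 : ∀ a ∈ S, ∀ a' ∈ S, ∀ e ∈ S, a ≠ a' → (ξ, a, a') ∉ (c e).dom)
    (h4 : ∀ a ∈ S, (c a).dom ∩ s0.dom ⊆ r.dom)
    (h5 : ∀ a ∈ S, ∀ a' ∈ S, a ≠ a' → (ξ, a, a') ∉ s0.dom) :
    ∃ d ≤ s0, (∀ a ∈ S, d ≤ c a) ∧ (∀ a ∈ S, ∀ a' ∈ S, a ≠ a' → ((ξ, a, a'), β) ∈ d.s) ∧
      ∀ x ∈ d.s, x ∈ s0.s ∨ (∃ a ∈ S, x ∈ (c a).s) ∨ x.1.1 = ξ := by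
  classical
  let g : Cond (Λ × V × V) := ⟨S.offDiag.image fun z => ((ξ, z.1, z.2), β), by
    intro i h h'
    obtain ⟨z, -, hz⟩ := Finset.mem_image.1 h
    obtain ⟨z', -, hz'⟩ := Finset.mem_image.1 h'
    have e1 := (Prod.ext_iff.1 hz).2
    have e2 := (Prod.ext_iff.1 hz').2
    simp only at e1 e2
    rw [e1] at e2
    exact absurd e2 (by simp)⟩
  have hg : ∀ i b, (i, b) ∈ g.s → ∃ a ∈ S, ∃ a' ∈ S, a ≠ a' ∧ i = (ξ, a, a') := by
    intro i b h
    obtain ⟨z, hz, hz'⟩ := Finset.mem_image.1 h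
    obtain ⟨e1, e2, e3⟩ := Finset.mem_offDiag.1 hz
    exact ⟨z.1, e1, z.2, e2, e3, (Prod.ext_iff.1 hz').1.symm⟩
  have a1 : ∀ a ∈ S, Cond.Agree (c a) s0 := fun a ha => Cond.agree_of_root (h1 a ha) h0 (h4 a ha)
  have a2 : ∀ a ∈ S, Cond.Agree (c a) g := by
    intro e he i b b' hb hb'
    obtain ⟨a, ha, a', ha', hne, rfl⟩ := hg i b' hb'
    exact absurd (Cond.mem_dom.2 ⟨b, hb⟩) (h3 a ha a' ha' e he hne)
  have a3 : Cond.Agree s0 g := by
    intro i b b' hb hb'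
    obtain ⟨a, ha, a', ha', hne, rfl⟩ := hg i b' hb'
    exact absurd (Cond.mem_dom.2 ⟨b, hb⟩) (h5 a ha a' ha' hne)
  obtain ⟨d, hd1, hd2⟩ := Cond.exists_union (S.disjSum (Finset.univ : Finset Bool))
    (Sum.elim c fun b => if b then s0 else g) (by
      rintro (a | b) ha (a' | b') ha'
      · rw [Finset.inl_mem_disjSum] at ha ha'
        by_cases hne : a = a'
        · subst hne; exact Cond.Agree.refl _
        · exact Cond.agree_of_root (h1 a ha) (h1 a' ha') (h2 a ha a' ha' hne)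
      · rw [Finset.inl_mem_disjSum] at ha
        cases b'
        · exact a2 a ha
        · exact a1 a ha
      · rw [Finset.inl_mem_disjSum] at ha'
        cases b
        · exact (a2 a' ha').symm
        · exact (a1 a' ha').symm
      · cases b <;> cases b'
        · exact Cond.Agree.refl _
        · exact a3.symm
        · exact a3
        · exact Cond.Agree.refl _)
  refine ⟨d, hd1 (Sum.inr true) (by simp), fun a ha => hd1 (Sum.inl a) (by simpa using ha), ?_, ?_⟩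
  · intro a ha a' ha' hne
    have : d ≤ g := hd1 (Sum.inr false) (by simp)
    exact this (Finset.mem_image.2 ⟨(a, a'), Finset.mem_offDiag.2 ⟨ha, ha', hne⟩, rfl⟩)
  · intro x hx
    obtain ⟨i, hi, hx⟩ := hd2 x hx
    rcases i with a | b
    · exact Or.inr (Or.inl ⟨a, by simpa using hi, hx⟩)
    · cases b
      · obtain ⟨a, -, a', -, -, h⟩ := hg x.1 x.2 hx
        exact Or.inr (Or.inr (by rw [h]))
      · exact Or.inl hx

/-- The vertices mentioned by a condition in the block `ξ`. -/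
def verts (_ξ : Λ) (p : Cond (Λ × V × V)) : Set V :=
  (fun i : Λ × V × V => i.2.1) '' p.dom ∪ (fun i : Λ × V × V => i.2.2) '' p.dom

theorem verts_finite (ξ : Λ) (p : Cond (Λ × V × V)) : (verts ξ p).Finite :=
  (p.dom_finite.image _).union (p.dom_finite.image _)

theorem mk_finset_le' (I : Type) : #(Finset I) ≤ max #I ℵ₀ := by
  rcases finite_or_infinite I with h | h
  · exact le_max_of_le_right (Cardinal.mk_le_aleph0)
  · rw [Cardinal.mk_finset_of_infinite]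
    exact le_max_left _ _

theorem graph_forced {K : Type} (hV : ℵ₀ < #V) (hK : #K < #Λ) (hΛ : ℵ₀ < #Λ)
    (p : Cond (Λ × V × V)) : p ∈ GraphForced (Cond (Λ × V × V)) V K := by
  classical
  intro H
  choose D hDc hD using fun u => exists_support (H u)
  have hZ : #(⋃ u, Prod.fst '' D u) < #Λ := by
    calc #(⋃ u, Prod.fst '' D u) ≤ Cardinal.sum fun u => #(Prod.fst '' D u) :=
          Cardinal.mk_iUnion_le_sum_mk
      _ ≤ Cardinal.sum fun _ : Finset K => ℵ₀ :=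
          Cardinal.sum_le_sum _ _ fun u => Cardinal.mk_image_le.trans (hDc u)
      _ = #(Finset K) * ℵ₀ := Cardinal.sum_const' _ _
      _ < #Λ := Cardinal.mul_lt_of_lt hΛ.le ((mk_finset_le' K).trans_lt (max_lt hK hΛ)) hΛ
  obtain ⟨ξ, hξ⟩ : ∃ ξ, ξ ∉ ⋃ u, Prod.fst '' D u := by
    by_contra hc
    push Not at hc
    rw [eq_univ_of_forall hc, Cardinal.mk_univ] at hZ
    exact lt_irrefl _ hZ
  have hξ' : ∀ u, ∀ i ∈ D u, i.1 ≠ ξ := fun u i hi h => hξ (mem_iUnion.2 ⟨u, i, hi, h⟩)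
  let E : V → V → Set (Cond (Λ × V × V)) := fun x y => {d | ((ξ, x, y), true) ∈ d.s}
  have hEt : ∀ x y (d : Cond (Λ × V × V)), ((ξ, x, y), true) ∈ d.s → d ∈ meets (E x y) :=
    fun x y d hd => meets_of_le hd le_rfl
  have hEf : ∀ x y (d : Cond (Λ × V × V)), ((ξ, x, y), false) ∈ d.s →
      d ∈ fnot (meets (E x y)) := by
    intro x y d hd q hq hm
    obtain ⟨r, hr, s, hs, hrs⟩ := hm q le_rfl
    exact r.fn _ (hrs hs) (hr (hq hd))
  refine mem_fex.2 fun p' _ => ⟨p', le_rfl, E, fun b => mem_fimp.2 fun q _ hfun =>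
    ⟨q, le_rfl, ?_⟩⟩
  rintro q1 hq1 ⟨hn1, hn2⟩
  have hfun1 := isFun_mono hfun hq1
  have hc : ∀ a : V, ∃ c ≤ q1, ∃ k, c ∈ meets (b a k) := fun a =>
    mem_fex.1 (hfun1.1 a) q1 le_rfl
  choose c hcq k hck using hc
  obtain ⟨T1, r, -, hT1, hr1, hr2⟩ := Cond.delta le_rfl (univ : Set V)
    (by rw [Cardinal.mk_univ]; exact not_le.2 hV) c
  obtain ⟨T2, R, hT21, hT2, hR⟩ := Pool.Agent.Helper292.SP.delta_sys (σ := ℵ₀) le_rfl le_rfl (by
    intro τ hτ
    obtain ⟨n, rfl⟩ := Cardinal.lt_aleph0.mp hτ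
    exact Cardinal.power_nat_le le_rfl) T1 hT1 (fun a => insert a (verts ξ (c a)))
    (fun a => ((verts_finite ξ (c a)).insert a).lt_aleph0)
  have hT2i : T2.Infinite := by
    intro hf
    exact hT2 hf.lt_aleph0.le
  obtain ⟨a0, ha0, a1, ha1, h01⟩ := hT2i.nontrivial
  have hRf : R.Finite := by
    rw [← hR a0 ha0 a1 ha1 h01]
    exact ((verts_finite ξ (c a0)).insert a0).subset inter_subset_left
  have hT3i : (T2 \ R).Infinite := hT2i.sdiff hRf
  have hrq : r ≤ q1 := by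
    rintro ⟨i, β⟩ hx
    have h1 : i ∈ r.dom := by
      rw [← hr2 a0 (hT21 ha0) a1 (hT21 ha1) h01]
      exact ⟨Cond.mem_dom.2 ⟨β, hcq a0 hx⟩, Cond.mem_dom.2 ⟨β, hcq a1 hx⟩⟩
    obtain ⟨β', h2⟩ := Cond.mem_dom.1 h1
    rw [Cond.unique (hcq a0 hx) (hr1 a0 (hT21 ha0) h2)]
    exact h2
  have F3 : ∀ a ∈ T2 \ R, ∀ a' ∈ T2 \ R, ∀ e ∈ T2 \ R, a ≠ a' → (ξ, a, a') ∉ (c e).dom := by
    intro a ha a' ha' e he hne hd
    have key : ∀ x ∈ T2 \ R, x ∈ verts ξ (c e) → x = e := by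
      intro x hx hv
      by_contra hxe
      apply hx.2
      rw [← hR x hx.1 e he.1 hxe]
      exact ⟨mem_insert _ _, mem_insert_of_mem _ hv⟩
    exact hne ((key a ha (Or.inl ⟨_, hd, rfl⟩)).trans (key a' ha' (Or.inr ⟨_, hd, rfl⟩)).symm)
  have F2 : ∀ a ∈ T2 \ R, ∀ a' ∈ T2 \ R, a ≠ a' → (c a).dom ∩ (c a').dom ⊆ r.dom :=
    fun a ha a' ha' hne => (hr2 a (hT21 ha.1) a' (hT21 ha'.1) hne).subset
  have F1 : ∀ a ∈ T2 \ R, c a ≤ r := fun a ha => hr1 a (hT21 ha.1)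
  let A : V → Set (Cond (Λ × V × V)) := fun a => {d | a ∈ T2 \ R ∧ d = c a}
  refine hn2 r hrq (mem_fex.2 fun r' hr' => ⟨r', le_rfl, A, ?_, ?_⟩)
  · intro t u hu
    refine mem_fimp.2 fun s hs hst => ?_
    have hext : ∀ t' : Finset (V × K), t' ⊆ t → ∃ s' ≤ s, ∀ z ∈ t', z.1 ∈ T2 \ R ∧ s' ≤ c z.1 := by
      intro t'
      induction t' using Finset.induction_on with
      | empty => exact fun _ => ⟨s, le_rfl, by simp⟩
      | insert z t' _ ih =>
        intro hsub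
        obtain ⟨s', hs', h'⟩ := ih ((Finset.subset_insert _ _).trans hsub)
        obtain ⟨s'', hs'', d, ⟨hd1, rfl⟩, hd2⟩ :=
          (hst z (hsub (Finset.mem_insert_self _ _))).2 s' hs'
        refine ⟨s'', hs''.trans hs', fun y hy => ?_⟩
        rcases Finset.mem_insert.1 hy with rfl | hy
        · exact ⟨hd1, hd2⟩
        · exact ⟨(h' y hy).1, hs''.trans (h' y hy).2⟩
    obtain ⟨s', hs', h'⟩ := hext t (Finset.Subset.refl _)
    have hs'r : s' ≤ r := hs'.trans (hs.trans hr')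
    have hkz : ∀ z ∈ t, k z.1 = z.2 := fun z hz =>
      isFun_unique (isFun_mono hfun1 (hs'r.trans hrq)) (meets_mono (hck z.1) (h' z hz).2)
        (meets_mono (hst z hz).1 hs')
    have hS : ∀ a ∈ t.image Prod.fst, a ∈ T2 \ R := by
      intro a ha
      obtain ⟨z, hz, rfl⟩ := Finset.mem_image.1 ha
      exact (h' z hz).1
    obtain ⟨d, hd0, hd1, hd2, hd3⟩ := amalg ξ c r r (t.image Prod.fst) true le_rfl
      (fun a ha => F1 a (hS a ha)) (fun a ha a' ha' => F2 a (hS a ha) a' (hS a' ha'))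
      (fun a ha a' ha' e he => F3 a (hS a ha) a' (hS a' ha') e (hS e he))
      (fun a _ => inter_subset_right)
      (fun a ha a' ha' hne hd => F3 a (hS a ha) a' (hS a' ha') a (hS a ha) hne
        (Cond.dom_mono (F1 a (hS a ha)) hd))
    have hdH : d ∈ meets (H u) := by
      apply meets_of_dense
      intro e he
      by_contra hcon
      push Not at hcon
      refine hn1 e (he.trans (hd0.trans hrq)) (mem_fex.2 fun e1 he1 => ⟨e1, le_rfl, t,
        mem_fex.2 fun e2 he2 => ⟨e2, le_rfl, u, hu, ?_, ?_, ?_⟩⟩)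
      · intro z hz
        rw [← hkz z hz]
        exact meets_mono (hck z.1) (he2.trans (he1.trans (he.trans
          (hd1 z.1 (Finset.mem_image_of_mem _ hz)))))
      · intro x hx y hy hne
        refine hEt x y e2 ((he2.trans (he1.trans he)) (hd2 x ?_ y ?_ hne))
        · obtain ⟨z, hz, rfl⟩ := hx
          exact Finset.mem_image_of_mem _ hz
        · obtain ⟨z, hz, rfl⟩ := hy
          exact Finset.mem_image_of_mem _ hz
      · exact fun e3 he3 => hcon e3 (he3.trans (he2.trans he1))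
    refine ⟨s', hs', hD u d s' hdH fun x hx hxD => ?_⟩
    rcases hd3 x hx with h1 | ⟨a, ha, h1⟩ | h1
    · exact hs'r h1
    · obtain ⟨z, hz, rfl⟩ := Finset.mem_image.1 ha
      exact (h' z hz).2 h1
    · exact absurd h1 (hξ' u x.1 hxD)
  · intro n
    refine mem_fex.2 fun s0 hs0 => ?_
    have hs0r : s0 ≤ r := hs0.trans hr'
    have hbad : {a | a ∈ T2 \ R ∧ ¬ (c a).dom ∩ s0.dom ⊆ r.dom}.Finite := by
      refine (s0.dom_finite.biUnion (t := fun i => {a | a ∈ T2 \ R ∧ i ∈ (c a).dom ∧ i ∉ r.dom})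
        fun i _ => Set.Subsingleton.finite ?_).subset ?_
      · intro a ha a' ha'
        by_contra hne
        exact ha.2.2 (F2 a ha.1 a' ha'.1 hne ⟨ha.2.1, ha'.2.1⟩)
      · rintro a ⟨ha, hna⟩
        obtain ⟨i, ⟨hi1, hi2⟩, hi3⟩ := not_subset.1 hna
        exact mem_iUnion₂.2 ⟨i, hi2, ha, hi1, hi3⟩
    obtain ⟨S, hS, hSn⟩ := ((hT3i.sdiff hbad).sdiff (verts_finite ξ s0)).exists_subset_card_eq n
    have hS1 : ∀ a ∈ S, a ∈ T2 \ R := fun a ha => (hS ha).1.1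
    obtain ⟨d, hd0, hd1, hd2, -⟩ := amalg ξ c r s0 S false hs0r
      (fun a ha => F1 a (hS1 a ha)) (fun a ha a' ha' => F2 a (hS1 a ha) a' (hS1 a' ha'))
      (fun a ha a' ha' e he => F3 a (hS1 a ha) a' (hS1 a' ha') e (hS1 e he))
      (fun a ha => by
        by_contra hcon
        exact (hS ha).1.2 ⟨hS1 a ha, hcon⟩)
      (fun a ha a' _ _ hd => (hS ha).2 (Or.inl ⟨_, hd, rfl⟩))
    refine ⟨d, hd0, S, hSn, fun x hx => ?_, fun x hx y hy hne => hEf x y d (hd2 x hx y hy hne)⟩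
    exact meets_of_le (s := c x) ⟨hS1 x hx, rfl⟩ (hd1 x hx)

end Cohen

end Pool.Agent.H513Z.CpU
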