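import Pool.Agent.H513Z.CpU.Zfc
import Pool.Agent.H513Z.CpU.Force

set_option autoImplicit false

namespace Pool.Agent.H513Z.CpU

open Cardinal Set

section Trivial

universe v

theorem u_fnot {φ : Set Unit} : () ∈ fnot φ ↔ () ∉ φ :=
  ⟨fun h => h () le_rfl, fun h _ _ => h⟩

theorem u_fand {φ ψ : Set Unit} : () ∈ fand φ ψ ↔ () ∈ φ ∧ () ∈ ψ := Iff.rfl

theorem u_fall {ι : Sort v} {φ : ι → Set Unit} : () ∈ fall φ ↔ ∀ i, () ∈ φ i := Iff.rfl

theorem u_for {φ ψ : Set Unit} : () ∈ for' φ ψ ↔ () ∈ φ ∨ () ∈ ψ := by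
  rw [for', u_fnot, u_fand, u_fnot, u_fnot]; tauto

theorem u_fimp {φ ψ : Set Unit} : () ∈ fimp φ ψ ↔ (() ∈ φ → () ∈ ψ) := by
  rw [fimp, u_fnot, u_fand, u_fnot]; tauto

theorem u_fex {ι : Sort v} {φ : ι → Set Unit} : () ∈ fex φ ↔ ∃ i, () ∈ φ i := by
  rw [fex, u_fnot, u_fall]
  simp only [u_fnot, not_forall, not_not]

theorem u_fground {h : Prop} : () ∈ fground (P := Unit) h ↔ h := Iff.rfl

theorem u_meets {N : Set Unit} : () ∈ meets N ↔ () ∈ N :=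
  ⟨fun h => by
    obtain ⟨_, _, s, hs, _⟩ := h () le_rfl
    exact hs, fun h _ _ => ⟨(), le_rfl, (), h, le_rfl⟩⟩

/-- For the trivial forcing notion, the sentence is the principle itself. -/
theorem trivial_iff (V K : Type) : () ∈ GraphForced Unit V K ↔ GraphPrinciple V K := by
  simp only [GraphForced, GraphPrinciple, FClique, FIndep, IsClique, IsIndep, IsFun, u_fall, u_fex,
    u_fimp, u_for, u_fand, u_fnot, u_fground, u_meets]
  constructor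
  · intro h H
    obtain ⟨E, hE⟩ := h fun u => {_x | H u}
    refine ⟨fun x y => () ∈ E x y, fun b => ?_⟩
    rcases hE (fun x y => {_z | b x = y}) ⟨fun x => ⟨b x, rfl⟩,
      fun x y y' h => h.1.symm.trans h.2⟩ with h1 | ⟨A, h1⟩
    · exact Or.inl h1
    · exact Or.inr ⟨fun a => () ∈ A a, h1⟩
  · intro h H
    obtain ⟨E, hE⟩ := h fun u => () ∈ H u
    refine ⟨fun x y => {_z | E x y}, fun b hb => ?_⟩
    choose f hf using hb.1
    rcases hE f with ⟨t, u, h1, h2, h3⟩ | ⟨A, h1, h2⟩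
    · exact Or.inl ⟨t, u, h1, fun z hz => h2 z hz ▸ hf z.1, h3⟩
    · exact Or.inr ⟨fun a => {_z | A a}, fun t u hu ht => h1 t u hu fun z hz =>
        ⟨hb.2 _ _ _ ⟨hf z.1, (ht z hz).1⟩, (ht z hz).2⟩, h2⟩

end Trivial

theorem forced (κ : Cardinal.{0}) (hκ : ℵ₀ < κ) :
    ∃ (P : Type) (_ : Preorder P), Nonempty P ∧
      ∀ p : P, p ∈ CardinalsPreserved P ∧ p ∈ GraphForced P κ.out κ.out := by
  refine ⟨Pool.Agent.H631R2.Cond ((Order.succ κ).out × κ.out × κ.out), inferInstance,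
    ⟨⟨∅, by simp⟩⟩, fun p => ⟨cardinalsPreserved_of_ccc Pool.Agent.H631R2.Cond.ccc p, ?_⟩⟩
  apply graph_forced
  · rwa [Cardinal.mk_out]
  · rw [Cardinal.mk_out, Cardinal.mk_out]
    exact Order.lt_succ κ
  · rw [Cardinal.mk_out]
    exact hκ.trans (Order.lt_succ κ)

theorem not_universal (K : Type) [Infinite K] (h : GraphPrinciple K K) (W : Type)
    [TopologicalSpace W] : ¬ CpUniversal #K W ∧ ¬ LinCpUniversal #K W := by
  have h1 : ¬ CpUniversal #K W := by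
    rintro ⟨hc, -, hw, hu⟩
    obtain ⟨X, _, hX1, hX2, hX3, hX4⟩ := no_embedding h W hw.le
    obtain ⟨φ, hφ⟩ := hu X hX1 hX2 (hX3.trans (max_le le_rfl (Cardinal.aleph0_le_mk K)))
    exact hX4 φ hφ
  refine ⟨h1, fun ⟨a, b, c, d⟩ => h1 ⟨a, b, c, fun X _ e f g => ?_⟩⟩
  obtain ⟨φ, hφ, -⟩ := d X e f g
  exact ⟨φ, hφ⟩

end Pool.Agent.H513Z.CpU
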