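import Pool.Agent.H513Z.CpU.Defs

set_option autoImplicit false

namespace Pool.Agent.H513Z.CpU

open Cardinal TopologicalSpace Set Topology

theorem exists_basis (W : Type) [TopologicalSpace W] :
    ∃ B : Set (Set W), IsTopologicalBasis B ∧ #B = weight W := by
  have h : ({c | ∃ B : Set (Set W), IsTopologicalBasis B ∧ #B = c} : Set Cardinal.{0}).Nonempty :=
    ⟨_, _, isTopologicalBasis_opens, rfl⟩
  exact csInf_mem h

theorem weight_le {W : Type} [TopologicalSpace W] {B : Set (Set W)} (hB : IsTopologicalBasis B) :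
    weight W ≤ #B :=
  csInf_le' ⟨B, hB, rfl⟩

theorem mk_finset_le (I : Type) : #(Finset I) ≤ max #I ℵ₀ := by
  rcases finite_or_infinite I with h | h
  · exact le_max_of_le_right (Cardinal.mk_le_aleph0)
  · rw [Cardinal.mk_finset_of_infinite]
    exact le_max_left _ _

theorem weight_cube_sub {I : Type} (S : Set (I → Bool)) : weight S ≤ max #I ℵ₀ := by
  classical
  let cyl : Finset (I × Bool) → Set S := fun F => {x | ∀ z ∈ F, x.1 z.1 = z.2}
  have hB : IsTopologicalBasis (range cyl) := by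
    apply isTopologicalBasis_of_isOpen_of_nhds
    · rintro _ ⟨F, rfl⟩
      have : cyl F = ⋂ z ∈ F, {x : S | x.1 z.1 = z.2} := by
        ext x; simp [cyl]
      rw [this]
      refine isOpen_biInter_finset fun z _ => ?_
      have hc : Continuous fun x : S => x.1 z.1 := (continuous_apply z.1).comp continuous_subtype_val
      exact (isOpen_discrete ({z.2} : Set Bool)).preimage hc
    · intro x U hx hU
      obtain ⟨U', hU', rfl⟩ := isOpen_induced_iff.1 hU
      obtain ⟨F, u, hu, hsub⟩ := isOpen_pi_iff.1 hU' x.1 hx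
      refine ⟨cyl (F.image fun a => (a, x.1 a)), ⟨_, rfl⟩, ?_, ?_⟩
      · intro z hz
        obtain ⟨a, -, rfl⟩ := Finset.mem_image.1 hz
        rfl
      · intro y hy
        apply hsub
        intro a ha
        have := hy (a, x.1 a) (Finset.mem_image.2 ⟨a, ha, rfl⟩)
        simp only at this
        rw [this]
        exact (hu a ha).2
  refine (weight_le hB).trans (Cardinal.mk_range_le.trans ((mk_finset_le _).trans ?_))
  refine max_le ?_ (le_max_right _ _)
  rw [Cardinal.mk_prod, Cardinal.lift_id, Cardinal.lift_id]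
  calc #I * #Bool ≤ max #I ℵ₀ * max #I ℵ₀ :=
        mul_le_mul' (le_max_left _ _) (le_max_of_le_right Cardinal.mk_le_aleph0)
    _ = max #I ℵ₀ := Cardinal.mul_eq_self (le_max_right _ _)

theorem cp_nhds {X : Type} [TopologicalSpace X] {O : Set (Cp X)} (hO : IsOpen O) {z : Cp X}
    (hz : z ∈ O) :
    ∃ (F : Finset X) (ε : ℝ), 0 < ε ∧ ∀ h : Cp X, (∀ x ∈ F, |h.1 x - z.1 x| < ε) → h ∈ O := by
  obtain ⟨U', hU', rfl⟩ := isOpen_induced_iff.1 hO
  obtain ⟨F, u, hu, hsub⟩ := isOpen_pi_iff.1 hU' z.1 hz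
  have h1 : ∀ x ∈ F, ∀ᶠ ε in nhdsWithin (0 : ℝ) (Ioi 0), Metric.ball (z.1 x) ε ⊆ u x := by
    intro x hx
    obtain ⟨δ, hδ, hb⟩ := Metric.isOpen_iff.1 (hu x hx).1 _ (hu x hx).2
    filter_upwards [Ioo_mem_nhdsGT hδ] with ε hε
    exact (Metric.ball_subset_ball hε.2.le).trans hb
  have h2 := (Filter.eventually_all_finset F).2 h1
  obtain ⟨ε, hε, hpos⟩ := (h2.and self_mem_nhdsWithin).exists
  refine ⟨F, ε, hpos, fun h hh => hsub ?_⟩
  intro x hx
  apply hε x hx
  rw [Metric.mem_ball, Real.dist_eq]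
  exact hh x hx

theorem exists_approx {W : Type} [TopologicalSpace W] [CompactSpace W] {B : Set (Set W)}
    (hB : IsTopologicalBasis B) {g : W → ℝ} (hg : Continuous g) {a b : ℝ} (hab : a < b) :
    ∃ j : Finset B, {w | b ≤ g w} ⊆ (⋃ U ∈ j, (U : Set W)) ∧
      closure (⋃ U ∈ j, (U : Set W)) ⊆ {w | a ≤ g w} := by
  classical
  have hK : IsCompact {w | b ≤ g w} := (isClosed_le continuous_const hg).isCompact
  have hO : IsOpen {w | a < g w} := isOpen_lt continuous_const hg
  obtain ⟨t, ht⟩ := hK.elim_finite_subcover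
    (fun U : {U : B // (U : Set W) ⊆ {w | a < g w}} => (U.1 : Set W))
    (fun U => hB.isOpen U.1.2) (by
      intro w hw
      obtain ⟨U, hU, hwU, hUO⟩ := hB.exists_subset_of_mem_open (hab.trans_le hw : a < g w) hO
      exact mem_iUnion.2 ⟨⟨⟨U, hU⟩, hUO⟩, hwU⟩)
  refine ⟨t.image Subtype.val, ?_, ?_⟩
  · intro w hw
    obtain ⟨U, hU, hwU⟩ := mem_iUnion₂.1 (ht hw)
    exact mem_iUnion₂.2 ⟨U.1, Finset.mem_image.2 ⟨U, hU, rfl⟩, hwU⟩
  · refine closure_minimal ?_ (isClosed_le continuous_const hg)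
    intro w hw
    obtain ⟨U, hU, hwU⟩ := mem_iUnion₂.1 hw
    obtain ⟨U', -, rfl⟩ := Finset.mem_image.1 hU
    have h1 : a < g w := U'.2 hwU
    exact h1.le

/-- The compact space of the families of cliques. -/
def cliqueSet (M : Type) {V : Type} (E : V → V → Prop) : Set (M × V → Bool) :=
  {x | ∀ m, IsClique E {a | x (m, a) = true}}

theorem isClosed_cliqueSet (M : Type) {V : Type} (E : V → V → Prop) :
    IsClosed (cliqueSet M E) := by
  have : cliqueSet M E = ⋂ m, ⋂ a, ⋂ b, ⋂ (_ : a ≠ b), ⋂ (_ : ¬ E a b),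
      ({x : M × V → Bool | x (m, a) = false} ∪ {x | x (m, b) = false}) := by
    ext x
    simp only [cliqueSet, IsClique, mem_ofPred_eq, mem_iInter, mem_union]
    constructor
    · intro h m a b hab hE
      by_contra hc
      rw [not_or] at hc
      exact hE (h m a (by simpa using hc.1) b (by simpa using hc.2) hab)
    · intro h m a ha b hb hab
      by_contra hE
      rcases h m a b hab hE with h1 | h1
      · rw [ha] at h1; exact absurd h1 (by simp)
      · rw [hb] at h1; exact absurd h1 (by simp)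
  rw [this]
  refine isClosed_iInter fun m => isClosed_iInter fun a => isClosed_iInter fun b =>
    isClosed_iInter fun _ => isClosed_iInter fun _ => IsClosed.union ?_ ?_
  · exact isClosed_eq (continuous_apply _) continuous_const
  · exact isClosed_eq (continuous_apply _) continuous_const

theorem no_embedding {V K : Type} [Infinite K] (h : GraphPrinciple V K) (W : Type)
    [TopologicalSpace W] [CompactSpace W] (hW : weight W ≤ #K) :
    ∃ (X : Type) (_ : TopologicalSpace X), CompactSpace X ∧ T2Space X ∧ weight X ≤ max #V ℵ₀ ∧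
      ∀ φ : Cp X → Cp W, ¬ IsEmbedding φ := by
  classical
  obtain ⟨B, hB, hBc⟩ := exists_basis W
  have hJ : #(Finset B × ℕ) ≤ #K := by
    rw [Cardinal.mk_prod, Cardinal.lift_id, Cardinal.lift_id]
    have hK : ℵ₀ ≤ #K := Cardinal.aleph0_le_mk K
    calc #(Finset B) * #ℕ ≤ #K * #K :=
          mul_le_mul' ((mk_finset_le _).trans (max_le (hBc.le.trans hW) hK)) (by simp)
      _ = #K := Cardinal.mul_eq_self hK
  obtain ⟨s⟩ := hJ
  let U : Finset B → Set W := fun j => ⋃ O ∈ j, (O : Set W)
  let H : Finset K → Prop := fun u => ∃ (k : ℕ) (w : Fin k → W), ∀ a ∈ u, ∃ j : Finset B,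
    s (j, k) = a ∧ ∃ i, w i ∈ closure (U j)
  obtain ⟨E, hE⟩ := h H
  let X : Type := cliqueSet (ℕ × ℕ) E
  have : CompactSpace X := isCompact_iff_compactSpace.1 (isClosed_cliqueSet _ E).isCompact
  refine ⟨X, inferInstance, inferInstance, inferInstance, ?_, ?_⟩
  · refine (weight_cube_sub _).trans (max_le ?_ (le_max_right _ _))
    rw [Cardinal.mk_prod, Cardinal.lift_id, Cardinal.lift_id]
    calc #(ℕ × ℕ) * #V ≤ max #V ℵ₀ * max #V ℵ₀ :=
          mul_le_mul' (le_max_of_le_right Cardinal.mk_le_aleph0) (le_max_left _ _)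
      _ = max #V ℵ₀ := Cardinal.mul_eq_self (le_max_right _ _)
  intro φ hφ
  let f : (ℕ × ℕ) × V → Cp X := fun v => ⟨fun x => if x.1 v = true then 1 else 0, by
    have hc : Continuous fun x : X => x.1 v := (continuous_apply v).comp continuous_subtype_val
    exact (continuous_of_discreteTopology (f := fun c : Bool => if c = true then (1 : ℝ) else 0)).comp hc⟩
  let z : Cp X := ⟨fun _ => 0, continuous_const⟩
  let g : (ℕ × ℕ) × V → W → ℝ := fun v w => |(φ (f v)).1 w - (φ z).1 w|
  have hg : ∀ v, Continuous (g v) := fun v => ((φ (f v)).2.sub (φ z).2).abs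
  have hj : ∀ v : (ℕ × ℕ) × V, ∃ j : Finset B, {w | 1 / ((v.1.1 : ℝ) + 1) ≤ g v w} ⊆ U j ∧
      closure (U j) ⊆ {w | 1 / ((v.1.1 : ℝ) + 2) ≤ g v w} := by
    intro v
    refine exists_approx hB (hg v) ?_
    apply one_div_lt_one_div_of_lt <;> [positivity; linarith]
  choose j hj1 hj2 using hj
  let b : ℕ × ℕ → V → K := fun m a => s (j (m, a), m.2)
  by_cases hall : ∀ m : ℕ × ℕ, ∃ (t : Finset (V × K)) (u : Finset K),
      (u : Set K) = Prod.snd '' (t : Set (V × K)) ∧
      (∀ z ∈ t, b m z.1 = z.2) ∧ IsClique E (Prod.fst '' (t : Set (V × K))) ∧ ¬ H u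
  · choose t u hu hb hcl hH using hall
    let x0 : X := ⟨fun v => decide (v.2 ∈ Prod.fst '' (t v.1 : Set (V × K))), by
      intro m
      have : {a | decide (a ∈ Prod.fst '' (t m : Set (V × K))) = true} =
          Prod.fst '' (t m : Set (V × K)) := by
        ext a; simp only [mem_ofPred_eq, decide_eq_true_eq]
      exact this ▸ hcl m⟩
    have hO : IsOpen {h : Cp X | h.1 x0 < 1} :=
      isOpen_lt ((continuous_apply x0).comp continuous_subtype_val) continuous_const
    obtain ⟨O', hO', hpre⟩ := hφ.isInducing.isOpen_iff.1 hO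
    have hz : φ z ∈ O' := by
      have : z ∈ φ ⁻¹' O' := by rw [hpre]; show (0 : ℝ) < 1; norm_num
      exact this
    obtain ⟨F, ε, hε, hF⟩ := cp_nhds hO' hz
    obtain ⟨n, hn⟩ := exists_nat_one_div_lt hε
    apply hH (n, F.card)
    refine ⟨F.card, fun i => (F.equivFin.symm i).1, ?_⟩
    intro a ha
    have ha' : a ∈ Prod.snd '' (t (n, F.card) : Set (V × K)) := by
      rw [← hu]; exact ha
    obtain ⟨y, hy, rfl⟩ := ha'
    refine ⟨j ((n, F.card), y.1), hb _ y hy, ?_⟩
    have h1 : φ (f ((n, F.card), y.1)) ∉ O' := by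
      intro hc
      have : f ((n, F.card), y.1) ∈ φ ⁻¹' O' := hc
      rw [hpre] at this
      have h2 : x0.1 ((n, F.card), y.1) = true := by
        simp only [x0, decide_eq_true_eq]
        exact ⟨y, hy, rfl⟩
      simp only [f, mem_ofPred_eq, h2, if_true] at this
      exact lt_irrefl _ this
    have h2 : ∃ w ∈ F, ε ≤ g ((n, F.card), y.1) w := by
      by_contra hc
      push Not at hc
      exact h1 (hF _ hc)
    obtain ⟨w, hw, hw'⟩ := h2
    refine ⟨F.equivFin ⟨w, hw⟩, ?_⟩
    simp only [Equiv.symm_apply_apply]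
    exact subset_closure (hj1 _ (hn.le.trans hw'))
  · push Not at hall
    obtain ⟨⟨n, k⟩, hm⟩ := hall
    rcases hE (b (n, k)) with ⟨t, u, h1, h2, h3, h4⟩ | ⟨A, hA1, hA2⟩
    · exact h4 (hm t u h1 h2 h3)
    obtain ⟨s1, hs1, hs1A, -⟩ := hA2 1
    obtain ⟨a0, rfl⟩ := Finset.card_eq_one.1 hs1
    have ha0 : A a0 := hs1A a0 (Finset.mem_singleton_self _)
    have hw : ∃ w : Fin k → W, ∀ a, A a → ∃ i, w i ∈ closure (U (j ((n, k), a))) := by
      have := (isCompact_univ (X := Fin k → W)).inter_iInter_nonempty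
        (fun a : {a // A a} => ⋃ i, {w : Fin k → W | w i ∈ closure (U (j ((n, k), a.1)))})
        (fun a => isClosed_iUnion_of_finite fun i =>
          isClosed_closure.preimage (continuous_apply i)) (by
          intro T
          let T' : Finset V := insert a0 (T.image Subtype.val)
          let t : Finset (V × K) := T'.image fun a => (a, b (n, k) a)
          obtain ⟨k', w, hw⟩ := hA1 t (t.image Prod.snd) (by simp) (by
            intro y hy
            obtain ⟨a, ha, rfl⟩ := Finset.mem_image.1 hy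
            refine ⟨rfl, ?_⟩
            rcases Finset.mem_insert.1 ha with rfl | ha
            · exact ha0
            · obtain ⟨a', -, rfl⟩ := Finset.mem_image.1 ha
              exact a'.2)
          have hmem : ∀ a ∈ T', b (n, k) a ∈ t.image Prod.snd := fun a ha =>
            Finset.mem_image.2 ⟨_, Finset.mem_image.2 ⟨a, ha, rfl⟩, rfl⟩
          obtain ⟨j0, hj0, -⟩ := hw _ (hmem a0 (Finset.mem_insert_self _ _))
          have hk : k' = k := (Prod.ext_iff.1 (s.injective hj0)).2
          subst hk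
          refine ⟨w, mem_univ _, mem_iInter₂.2 fun a ha => ?_⟩
          obtain ⟨j1, hj1', i, hi⟩ := hw _ (hmem a.1
            (Finset.mem_insert_of_mem (Finset.mem_image.2 ⟨a, ha, rfl⟩)))
          have hjj : j1 = j ((n, k'), a.1) := (Prod.ext_iff.1 (s.injective hj1')).1
          exact mem_iUnion.2 ⟨i, hjj ▸ hi⟩)
      obtain ⟨w, -, hw⟩ := this
      refine ⟨w, fun a ha => ?_⟩
      exact mem_iUnion.1 (mem_iInter.1 hw ⟨a, ha⟩)
    obtain ⟨w, hw⟩ := hw
    have hO' : IsOpen {h : Cp W | ∀ i, |h.1 (w i) - (φ z).1 (w i)| < 1 / ((n : ℝ) + 2)} := by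
      rw [ofPred_forall]
      refine isOpen_iInter_of_finite fun i => isOpen_lt ?_ continuous_const
      exact (((continuous_apply (w i)).comp continuous_subtype_val).sub continuous_const).abs
    have hO := hO'.preimage hφ.continuous
    obtain ⟨F, ε, hε, hF⟩ := cp_nhds hO (z := z) (by
      intro i
      simp only [sub_self, abs_zero]
      positivity)
    obtain ⟨S, hS, hSA, hSI⟩ := hA2 (F.card + 1)
    have hex : ∃ a ∈ S, ∀ x ∈ F, x.1 ((n, k), a) ≠ true := by
      by_contra hc
      push Not at hc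
      have : Nonempty X := ⟨⟨fun _ => false, fun m a ha => absurd ha (by simp)⟩⟩
      choose! y hy1 hy2 using hc
      have := Finset.card_le_card_of_injOn y (fun a ha => hy1 a ha) (by
        intro a ha a' ha' hyy
        by_contra hne
        refine hSI a ha a' ha' hne ((y a).2 (n, k) a (hy2 a ha) a' ?_ hne)
        rw [hyy]
        exact hy2 a' ha')
      omega
    obtain ⟨a, haS, ha⟩ := hex
    have h1 := hF (f ((n, k), a)) (by
      intro x hx
      simp only [f, z, if_neg (ha x hx), sub_self, abs_zero]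
      exact hε)
    obtain ⟨i, hi⟩ := hw a (hSA a haS)
    exact absurd (h1 i) (not_lt.2 (hj2 _ hi))

end Pool.Agent.H513Z.CpU
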